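import Mathlib

/-! Project LN, block LOW, part A: abstract combinatorics (sets of primes, weighted counting). -/

namespace Pool.Agent.Helper88.LN

open Finset

open scoped Classical

section

variable {P : Type*} (nm : P → ℕ) (B : ℕ → Finset P)

/-- the finite sets of primes with product of the norms at most `y` which avoid `Bad` -/
noncomputable def ST (Bad : Set P) (y : ℕ) : Finset (Finset P) :=
  (B y).powerset.filter (fun s => ∏ v ∈ s, nm v ≤ y ∧ ∀ v ∈ Bad, v ∉ s)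

variable {nm B}

theorem nm_le_prod (h2 : ∀ v, 2 ≤ nm v) {s : Finset P} {v : P} (hv : v ∈ s) :
    nm v ≤ ∏ u ∈ s, nm u :=
  Nat.le_of_dvd (Finset.prod_pos fun u _ => by have := h2 u; omega) (Finset.dvd_prod_of_mem nm hv)

theorem mem_ST (hB : ∀ x v, v ∈ B x ↔ nm v ≤ x) (h2 : ∀ v, 2 ≤ nm v) {Bad : Set P} {y : ℕ}
    {s : Finset P} : s ∈ ST nm B Bad y ↔ ∏ v ∈ s, nm v ≤ y ∧ ∀ v ∈ Bad, v ∉ s := by
  unfold ST
  rw [Finset.mem_filter, Finset.mem_powerset]
  constructor
  · exact fun h => h.2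
  · intro h
    refine ⟨fun v hv => (hB y v).2 ((nm_le_prod h2 hv).trans h.1), h⟩

/-- the sets which contain a given prime -/
theorem card_contains (hB : ∀ x v, v ∈ B x ↔ nm v ≤ x) (h2 : ∀ v, 2 ≤ nm v) {C : ℝ} (hC : 0 ≤ C)
    (hup : ∀ y : ℕ, ((ST nm B ∅ y).card : ℝ) ≤ C * y) (Bad : Set P) (y : ℕ) (v : P) :
    (({r ∈ ST nm B Bad y | v ∈ r}.card : ℕ) : ℝ) ≤ C * y * (1 / nm v) := by
  have h1 : {r ∈ ST nm B Bad y | v ∈ r}.card ≤ (ST nm B ∅ (y / nm v)).card := by
    apply Finset.card_le_card_of_injOn (fun r => r.erase v)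
    · intro r hr
      rw [Finset.mem_coe, Finset.mem_filter, mem_ST hB h2] at hr
      rw [Finset.mem_coe, mem_ST hB h2]
      refine ⟨?_, fun u hu => absurd hu (Set.notMem_empty u)⟩
      rw [Nat.le_div_iff_mul_le (by have := h2 v; omega)]
      rw [Finset.prod_erase_mul _ _ hr.2]
      exact hr.1.1
    · intro r hr r' hr' h
      rw [Finset.mem_coe, Finset.mem_filter] at hr hr'
      have h3 : insert v (r.erase v) = insert v (r'.erase v) := by
        have : r.erase v = r'.erase v := h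
        rw [this]
      rwa [Finset.insert_erase hr.2, Finset.insert_erase hr'.2] at h3
  have h3 : ((y / nm v : ℕ) : ℝ) ≤ (y : ℝ) / nm v := Nat.cast_div_le
  calc ((_ : ℕ) : ℝ) ≤ ((ST nm B ∅ (y / nm v)).card : ℝ) := by exact_mod_cast h1
    _ ≤ C * ((y / nm v : ℕ) : ℝ) := hup _
    _ ≤ C * ((y : ℝ) / nm v) := mul_le_mul_of_nonneg_left h3 hC
    _ = C * y * (1 / nm v) := by ring

/-- the sets disjoint from a given set of primes with small sum of the reciprocals -/
theorem card_disjoint (hB : ∀ x v, v ∈ B x ↔ nm v ≤ x) (h2 : ∀ v, 2 ≤ nm v) {C : ℝ} (hC : 0 < C)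
    (hup : ∀ y : ℕ, ((ST nm B ∅ y).card : ℝ) ≤ C * y) (Bad : Set P) {δ : ℝ}
    (hlow : ∀ y : ℕ, 1 ≤ y → δ * y ≤ ((ST nm B Bad y).card : ℝ)) (t : Finset P)
    (ht : ∑ v ∈ t, (1 : ℝ) / nm v ≤ δ / (2 * C)) (y : ℕ) (hy : 1 ≤ y) :
    δ / 2 * y ≤ (({r ∈ ST nm B Bad y | Disjoint r t}.card : ℕ) : ℝ) := by
  have h1 : ((ST nm B Bad y).card : ℝ) ≤ (({r ∈ ST nm B Bad y | Disjoint r t}.card : ℕ) : ℝ) +
      ∑ v ∈ t, (({r ∈ ST nm B Bad y | v ∈ r}.card : ℕ) : ℝ) := by
    have h3 : ST nm B Bad y ⊆ {r ∈ ST nm B Bad y | Disjoint r t} ∪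
        t.biUnion (fun v => {r ∈ ST nm B Bad y | v ∈ r}) := by
      intro r hr
      rw [Finset.mem_union, Finset.mem_filter, Finset.mem_biUnion]
      by_cases h : Disjoint r t
      · exact Or.inl ⟨hr, h⟩
      · rw [Finset.not_disjoint_iff] at h
        obtain ⟨v, hv, hvt⟩ := h
        exact Or.inr ⟨v, hvt, Finset.mem_filter.2 ⟨hr, hv⟩⟩
    have h4 := (Finset.card_le_card h3).trans ((Finset.card_union_le _ _).trans
      (Nat.add_le_add_left Finset.card_biUnion_le _))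
    exact_mod_cast h4
  have h5 : ∑ v ∈ t, (({r ∈ ST nm B Bad y | v ∈ r}.card : ℕ) : ℝ) ≤ δ / 2 * y := by
    calc _ ≤ ∑ v ∈ t, C * y * (1 / nm v) :=
          Finset.sum_le_sum fun v _ => card_contains hB h2 hC.le hup Bad y v
      _ = C * y * ∑ v ∈ t, (1 : ℝ) / nm v := by rw [Finset.mul_sum]
      _ ≤ C * y * (δ / (2 * C)) := mul_le_mul_of_nonneg_left ht (by positivity)
      _ = δ / 2 * y := by field_simp
  have h6 := hlow y hy
  linarith

/-- the sets which contain a given set -/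
theorem card_super (hB : ∀ x v, v ∈ B x ↔ nm v ≤ x) (h2 : ∀ v, 2 ≤ nm v) (Bad : Set P)
    (t : Finset P) (htB : ∀ v ∈ Bad, v ∉ t) (x : ℕ) :
    {r ∈ ST nm B Bad (x / ∏ v ∈ t, nm v) | Disjoint r t}.card ≤
      {s ∈ ST nm B Bad x | t ⊆ s}.card := by
  apply Finset.card_le_card_of_injOn (fun r => r ∪ t)
  · intro r hr
    rw [Finset.mem_coe, Finset.mem_filter, mem_ST hB h2] at hr
    rw [Finset.mem_coe, Finset.mem_filter, mem_ST hB h2]
    refine ⟨⟨?_, ?_⟩, Finset.subset_union_right⟩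
    · rw [Finset.prod_union hr.2]
      have hpos : 0 < ∏ v ∈ t, nm v := Finset.prod_pos fun u _ => by have := h2 u; omega
      exact (Nat.le_div_iff_mul_le hpos).1 hr.1.1
    · intro v hv hvr
      rw [Finset.mem_union] at hvr
      rcases hvr with h | h
      · exact hr.1.2 v hv h
      · exact htB v hv h
  · intro r hr r' hr' h
    rw [Finset.mem_coe, Finset.mem_filter] at hr hr'
    have h3 : (r ∪ t) \ t = (r' ∪ t) \ t := by
      have : r ∪ t = r' ∪ t := h
      rw [this]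
    rwa [Finset.union_sdiff_cancel_right hr.2, Finset.union_sdiff_cancel_right hr'.2] at h3

/-- the weighted count is at least the sum over the subsets -/
theorem weighted_ge (S : Finset (Finset P)) (TT : Finset (Finset P)) (m : ℕ) :
    ∑ t ∈ TT, (m : ℝ) ^ t.card * ({s ∈ S | t ⊆ s}.card : ℕ) ≤
      ∑ s ∈ S, ((m + 1 : ℕ) : ℝ) ^ s.card := by
  have h1 : ∀ s : Finset P, ((m + 1 : ℕ) : ℝ) ^ s.card = ∑ t ∈ s.powerset, (m : ℝ) ^ t.card := by
    intro s
    have := Finset.sum_pow_mul_eq_add_pow (m : ℝ) 1 s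
    simp only [one_pow, mul_one] at this
    rw [this]
    push_cast
    ring
  have h2 : ∀ t ∈ TT, (m : ℝ) ^ t.card * ({s ∈ S | t ⊆ s}.card : ℕ) =
      ∑ s ∈ S, if t ⊆ s then (m : ℝ) ^ t.card else 0 := by
    intro t _
    rw [← Finset.sum_filter, Finset.sum_const, nsmul_eq_mul, mul_comm]
  rw [Finset.sum_congr rfl h2, Finset.sum_comm]
  refine Finset.sum_le_sum fun s _ => ?_
  rw [h1, ← Finset.sum_filter]
  apply Finset.sum_le_sum_of_subset_of_nonneg
  · intro t ht
    rw [Finset.mem_filter] at ht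
    exact Finset.mem_powerset.2 ht.2
  · intro t _ _
    positivity

/-- Markov's inequality for random subsets -/
theorem markov (P0 : Finset P) (a φ : P → ℝ) (ha : ∀ v, 0 ≤ a v) (hφ : ∀ v, 0 ≤ φ v)
    (h : ∑ v ∈ P0, φ v * a v ≤ 1 / 2) :
    (1 / 2) * ∏ v ∈ P0, (1 + a v) ≤
      ∑ t ∈ P0.powerset.filter (fun t => ∑ v ∈ t, φ v ≤ 1), ∏ v ∈ t, a v := by
  have hM : ∏ v ∈ P0, (1 + a v) = ∑ t ∈ P0.powerset, ∏ v ∈ t, a v := Finset.prod_one_add P0
  have hM0 : 0 ≤ ∏ v ∈ P0, (1 + a v) := Finset.prod_nonneg fun v _ => by linarith [ha v]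
  have h1 : ∑ t ∈ P0.powerset, (∏ v ∈ t, a v) * ∑ v ∈ t, φ v ≤ 1 / 2 * ∏ v ∈ P0, (1 + a v) := by
    have h2 : ∀ t ∈ P0.powerset, (∏ v ∈ t, a v) * ∑ v ∈ t, φ v =
        ∑ v ∈ P0, if v ∈ t then (∏ v ∈ t, a v) * φ v else 0 := by
      intro t ht
      rw [Finset.mul_sum, ← Finset.sum_filter]
      congr 1
      ext v
      rw [Finset.mem_filter]
      exact ⟨fun hv => ⟨Finset.mem_powerset.1 ht hv, hv⟩, fun hv => hv.2⟩
    rw [Finset.sum_congr rfl h2, Finset.sum_comm]
    have h3 : ∀ v ∈ P0, (∑ t ∈ P0.powerset, if v ∈ t then (∏ u ∈ t, a u) * φ v else 0) ≤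
        (φ v * a v) * ∏ u ∈ P0, (1 + a u) := by
      intro v hv
      have h4 : (∑ t ∈ P0.powerset, if v ∈ t then (∏ u ∈ t, a u) * φ v else 0) =
          ∑ t ∈ (P0.erase v).powerset, (φ v * a v) * ∏ u ∈ t, a u := by
        rw [← Finset.sum_filter]
        symm
        apply Finset.sum_bij (fun t _ => insert v t)
        · intro t ht
          rw [Finset.mem_powerset] at ht
          rw [Finset.mem_filter, Finset.mem_powerset]
          exact ⟨Finset.insert_subset hv (ht.trans (Finset.erase_subset _ _)),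
            Finset.mem_insert_self _ _⟩
        · intro t ht t' ht' h5
          rw [Finset.mem_powerset] at ht ht'
          have h6 : v ∉ t := fun h => (Finset.mem_erase.1 (ht h)).1 rfl
          have h7 : v ∉ t' := fun h => (Finset.mem_erase.1 (ht' h)).1 rfl
          rw [← Finset.erase_insert h6, ← Finset.erase_insert h7, h5]
        · intro s hs
          rw [Finset.mem_filter, Finset.mem_powerset] at hs
          refine ⟨s.erase v, Finset.mem_powerset.2 (Finset.erase_subset_erase _ hs.1),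
            Finset.insert_erase hs.2⟩
        · intro t ht
          rw [Finset.mem_powerset] at ht
          have h6 : v ∉ t := fun h => (Finset.mem_erase.1 (ht h)).1 rfl
          rw [Finset.prod_insert h6]
          ring
      rw [h4, ← Finset.mul_sum, ← Finset.prod_one_add]
      apply mul_le_mul_of_nonneg_left _ (mul_nonneg (hφ v) (ha v))
      rw [← Finset.mul_prod_erase P0 _ hv]
      have h8 : 0 ≤ ∏ u ∈ P0.erase v, (1 + a u) :=
        Finset.prod_nonneg fun u _ => by linarith [ha u]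
      nlinarith [ha v, mul_nonneg (ha v) h8]
    calc _ ≤ ∑ v ∈ P0, (φ v * a v) * ∏ u ∈ P0, (1 + a u) := Finset.sum_le_sum h3
      _ = (∑ v ∈ P0, φ v * a v) * ∏ u ∈ P0, (1 + a u) := by rw [Finset.sum_mul]
      _ ≤ 1 / 2 * ∏ v ∈ P0, (1 + a v) := mul_le_mul_of_nonneg_right h hM0
  have h9 : ∑ t ∈ P0.powerset.filter (fun t => ¬ ∑ v ∈ t, φ v ≤ 1), ∏ v ∈ t, a v ≤
      1 / 2 * ∏ v ∈ P0, (1 + a v) := by
    refine le_trans ?_ h1
    calc _ ≤ ∑ t ∈ P0.powerset.filter (fun t => ¬ ∑ v ∈ t, φ v ≤ 1),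
          (∏ v ∈ t, a v) * ∑ v ∈ t, φ v := by
          refine Finset.sum_le_sum fun t ht => ?_
          have h10 := (Finset.mem_filter.1 ht).2
          have h11 : 0 ≤ ∏ v ∈ t, a v := Finset.prod_nonneg fun v _ => ha v
          nlinarith
      _ ≤ _ := by
          apply Finset.sum_le_sum_of_subset_of_nonneg (Finset.filter_subset _ _)
          intro t _ _
          exact mul_nonneg (Finset.prod_nonneg fun v _ => ha v) (Finset.sum_nonneg fun v _ => hφ v)
  have h12 := Finset.sum_filter_add_sum_filter_not P0.powerset (fun t => ∑ v ∈ t, φ v ≤ 1)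
    (fun t => ∏ v ∈ t, a v)
  rw [← hM] at h12
  linarith

end

end Pool.Agent.Helper88.LN
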