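import Mathlib
import Pool.Agent.Helper88.LN.LowA

/-! Project LN, block LOW, part B: abstract analysis. -/

namespace Pool.Agent.Helper88.LN

open Finset

open scoped Classical

section

variable {P : Type*} {nm : P → ℕ} {B : ℕ → Finset P}

theorem split_succ (hB : ∀ x v, v ∈ B x ↔ nm v ≤ x) (z : ℕ) (f : P → ℝ) :
    ∑ v ∈ B (z + 1), f v = ∑ v ∈ B z, f v + ∑ v ∈ (B (z + 1)).filter (fun v => nm v = z + 1), f v := by
  rw [← Finset.sum_filter_add_sum_filter_not (B (z + 1)) (fun v => nm v ≤ z)]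
  congr 1
  · congr 1
    ext v
    rw [Finset.mem_filter, hB, hB]
    constructor
    · exact fun h => h.2
    · exact fun h => ⟨by omega, h⟩
  · congr 1
    ext v
    rw [Finset.mem_filter, Finset.mem_filter, hB]
    constructor
    · rintro ⟨h1, h2⟩
      exact ⟨h1, by omega⟩
    · rintro ⟨h1, h2⟩
      exact ⟨h1, by omega⟩

/-- the Chebyshev upper bound gives Mertens' upper bound -/
theorem mertens_one (hB : ∀ x v, v ∈ B x ↔ nm v ≤ x) (h2 : ∀ v, 2 ≤ nm v) {C : ℝ} (hC : 0 ≤ C)
    (hθ : ∀ x : ℕ, ∑ v ∈ B x, Real.log (nm v) ≤ C * x) (z : ℕ) (hz : 1 ≤ z) :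
    ∑ v ∈ B z, Real.log (nm v) * (1 / nm v) - (∑ v ∈ B z, Real.log (nm v)) / z ≤
      C * Real.log z := by
  induction z, hz using Nat.le_induction with
  | base =>
    have h1 : B 1 = ∅ := by
      rw [Finset.eq_empty_iff_forall_notMem]
      intro v hv
      have := (hB 1 v).1 hv
      have := h2 v
      omega
    rw [h1]
    simp
  | succ z hz ih =>
    have hz' : (0 : ℝ) < z := by exact_mod_cast hz
    rw [split_succ hB z (fun v => Real.log (nm v) * (1 / nm v)), split_succ hB z
      (fun v => Real.log (nm v))]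
    set T := ∑ v ∈ (B (z + 1)).filter (fun v => nm v = z + 1), Real.log (nm v) with hT
    have h3 : ∑ v ∈ (B (z + 1)).filter (fun v => nm v = z + 1), Real.log (nm v) * (1 / nm v) =
        T / (z + 1) := by
      rw [hT, Finset.sum_div]
      refine Finset.sum_congr rfl fun v hv => ?_
      rw [(Finset.mem_filter.1 hv).2]
      push_cast
      ring
    rw [h3]
    set θ := ∑ v ∈ B z, Real.log (nm v) with hθd
    have h4 : θ ≤ C * z := hθ z
    have h5 : C / (z + 1) ≤ C * (Real.log (z + 1) - Real.log z) := by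
      rw [← Real.log_div (by positivity) hz'.ne']
      have h6 := Real.one_sub_inv_le_log_of_pos (x := ((z : ℝ) + 1) / z) (by positivity)
      have h7 : 1 - (((z : ℝ) + 1) / z)⁻¹ = 1 / (z + 1) := by
        field_simp
        ring
      rw [h7] at h6
      calc C / (z + 1) = C * (1 / (z + 1)) := by ring
        _ ≤ _ := mul_le_mul_of_nonneg_left h6 hC
    have h8 : θ / z - θ / (z + 1) ≤ C / (z + 1) := by
      have h9 : θ / z - θ / (z + 1) = (θ / z) * (1 / (z + 1)) := by
        field_simp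
        ring
      rw [h9]
      have h10 : θ / z ≤ C := by
        rw [div_le_iff₀ hz']
        exact h4
      calc (θ / z) * (1 / (z + 1)) ≤ C * (1 / (z + 1)) :=
            mul_le_mul_of_nonneg_right h10 (by positivity)
        _ = C / (z + 1) := by ring
    push_cast
    have h11 : (θ + T) / ((z : ℝ) + 1) = θ / (z + 1) + T / (z + 1) := by ring
    rw [h11]
    have h12 : C * (Real.log (z + 1) - Real.log z) = C * Real.log (z + 1) - C * Real.log z := by
      ring
    linarith

/-- the tail of the sum of the inverse squares -/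
theorem sq_tail (hB : ∀ x v, v ∈ B x ↔ nm v ≤ x) {C : ℝ} (hC : 0 ≤ C)
    (hπ : ∀ x : ℕ, ((B x).card : ℝ) ≤ C * x) (W : ℕ) (hW : 1 ≤ W) (z : ℕ) (hz : W ≤ z) :
    ∑ v ∈ (B z).filter (fun v => W < nm v), ((1 : ℝ) / nm v) ^ 2 ≤
      ((B z).card : ℝ) / z ^ 2 + 2 * C * (1 / W - 1 / z) := by
  induction z, hz using Nat.le_induction with
  | base =>
    have h1 : (B W).filter (fun v => W < nm v) = ∅ := by
      rw [Finset.eq_empty_iff_forall_notMem]
      intro v hv
      rw [Finset.mem_filter, hB] at hv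
      omega
    rw [h1]
    simp
    positivity
  | succ z hz ih =>
    have hz1 : 1 ≤ z := hW.trans hz
    have hz' : (0 : ℝ) < z := by exact_mod_cast hz1
    have h1 := split_succ hB z (fun v => if W < nm v then ((1 : ℝ) / nm v) ^ 2 else 0)
    rw [← Finset.sum_filter, ← Finset.sum_filter] at h1
    rw [h1]
    have h3 : ∑ v ∈ (B (z + 1)).filter (fun v => nm v = z + 1),
        (if W < nm v then ((1 : ℝ) / nm v) ^ 2 else 0) =
        (((B (z + 1)).filter (fun v => nm v = z + 1)).card : ℝ) / (z + 1) ^ 2 := by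
      rw [Finset.card_eq_sum_ones, Nat.cast_sum, Finset.sum_div]
      refine Finset.sum_congr rfl fun v hv => ?_
      rw [(Finset.mem_filter.1 hv).2, if_pos (by omega)]
      push_cast
      rw [div_pow, one_pow]
    rw [h3]
    have h4 : ((B (z + 1)).card : ℝ) = ((B z).card : ℝ) +
        (((B (z + 1)).filter (fun v => nm v = z + 1)).card : ℝ) := by
      have := split_succ hB z (fun _ => (1 : ℝ))
      simpa using this
    rw [h4]
    set T := (((B (z + 1)).filter (fun v => nm v = z + 1)).card : ℝ) with hT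
    set p := ((B z).card : ℝ) with hp
    have hp0 : 0 ≤ p := by positivity
    have h5 : p ≤ C * z := hπ z
    have h6 : p / z ^ 2 - p / (z + 1) ^ 2 ≤ 2 * C * (1 / z - 1 / (z + 1)) := by
      have h7 : p / z ^ 2 - p / (z + 1) ^ 2 = p * (2 * z + 1) / (z ^ 2 * (z + 1) ^ 2) := by
        field_simp
        ring
      have h8 : 2 * C * (1 / (z:ℝ) - 1 / (z + 1)) = (C * z) * (2 * z + 2) / (z ^ 2 * (z + 1) ^ 2) := by
        field_simp
        ring
      rw [h7, h8]
      apply div_le_div_of_nonneg_right _ (by positivity)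
      apply mul_le_mul h5 (by linarith) (by positivity) (by positivity)
    have h9 : (p + T) / ((z : ℝ) + 1) ^ 2 = p / (z + 1) ^ 2 + T / (z + 1) ^ 2 := by ring
    push_cast
    rw [h9]
    have h10 : 2 * C * (1 / (W:ℝ) - 1 / (z + 1)) = 2 * C * (1 / W - 1 / z) +
      2 * C * (1 / z - 1 / (z + 1)) := by ring
    rw [h10]
    linarith

theorem sq_tail' (hB : ∀ x v, v ∈ B x ↔ nm v ≤ x) {C : ℝ} (hC : 0 ≤ C)
    (hπ : ∀ x : ℕ, ((B x).card : ℝ) ≤ C * x) (W : ℕ) (hW : 1 ≤ W) (z : ℕ) :
    ∑ v ∈ (B z).filter (fun v => W < nm v), ((1 : ℝ) / nm v) ^ 2 ≤ 2 * C / W := by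
  have hW' : (0 : ℝ) < W := by exact_mod_cast hW
  by_cases hz : W ≤ z
  · have hz' : (0 : ℝ) < z := by
      have : (W : ℝ) ≤ z := by exact_mod_cast hz
      linarith
    have h1 := sq_tail hB hC hπ W hW z hz
    have h2 : ((B z).card : ℝ) / z ^ 2 ≤ C / z := by
      rw [div_le_div_iff₀ (by positivity) hz']
      have := hπ z
      nlinarith
    have h3 : 2 * C * (1 / (W:ℝ) - 1 / z) = 2 * C / W - 2 * (C / z) := by ring
    have h4 : 0 ≤ C / z := by positivity
    linarith
  · have h1 : (B z).filter (fun v => W < nm v) = ∅ := by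
      rw [Finset.eq_empty_iff_forall_notMem]
      intro v hv
      rw [Finset.mem_filter, hB] at hv
      omega
    rw [h1]
    simp
    positivity

/-- lower bound of the Euler product -/
theorem prod_ge (P0 : Finset P) (a : P → ℝ) (ha : ∀ v, 0 ≤ a v) :
    Real.exp (∑ v ∈ P0, a v - ∑ v ∈ P0, (a v) ^ 2) ≤ ∏ v ∈ P0, (1 + a v) := by
  rw [← Finset.sum_sub_distrib, Real.exp_sum]
  apply Finset.prod_le_prod
  · intro v _
    positivity
  · intro v _
    have h1 : (0 : ℝ) < 1 + a v := by linarith [ha v]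
    rw [← Real.le_log_iff_exp_le h1]
    have h2 := Real.one_sub_inv_le_log_of_pos h1
    refine le_trans ?_ h2
    have h3 : 1 - (1 + a v)⁻¹ - (a v - a v ^ 2) = a v ^ 3 / (1 + a v) := by
      field_simp
      ring
    have h4 : 0 ≤ a v ^ 3 / (1 + a v) := by
      have := ha v
      positivity
    linarith

/-- THE ABSTRACT LOWER BOUND -/
theorem low_abs (hB : ∀ x v, v ∈ B x ↔ nm v ≤ x) (h2 : ∀ v, 2 ≤ nm v) {C : ℝ} (hC : 0 < C)
    (hup : ∀ y : ℕ, ((ST nm B ∅ y).card : ℝ) ≤ C * y) (Bad : Set P) (hBad : Bad.Finite) {δ : ℝ}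
    (hδ : 0 < δ) (hlow : ∀ y : ℕ, 1 ≤ y → δ * y ≤ ((ST nm B Bad y).card : ℝ))
    {C₁ : ℝ} (hθ : ∀ x : ℕ, ∑ v ∈ B x, Real.log (nm v) ≤ C₁ * x)
    {C₂ : ℝ} (hM : ∀ x : ℕ, 2 ≤ x → Real.log (Real.log x) - C₂ ≤ ∑ v ∈ B x, (1 : ℝ) / nm v)
    (m : ℕ) :
    ∃ c₀ : ℝ, 0 < c₀ ∧ ∀ x : ℕ, 3 ≤ x →
      c₀ * x * Real.log x ^ m ≤ ∑ s ∈ ST nm B Bad x, ((m + 1 : ℕ) : ℝ) ^ s.card := by
  -- the number of primes
  have hπ : ∀ x : ℕ, ((B x).card : ℝ) ≤ C * x := by
    intro x
    refine le_trans ?_ (hup x)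
    norm_cast
    apply Finset.card_le_card_of_injOn (fun v => ({v} : Finset P))
    · intro v hv
      rw [Finset.mem_coe, mem_ST hB h2]
      refine ⟨?_, fun u hu => absurd hu (Set.notMem_empty u)⟩
      rw [Finset.prod_singleton]
      exact (hB x v).1 hv
    · intro v _ w _ h
      exact Finset.singleton_injective h
  -- Mertens, upper bound
  set C₁' : ℝ := max C₁ 0 with hC₁'
  have hC₁0 : 0 ≤ C₁' := le_max_right _ _
  have hθ' : ∀ x : ℕ, ∑ v ∈ B x, Real.log (nm v) ≤ C₁' * x := fun x =>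
    (hθ x).trans (mul_le_mul_of_nonneg_right (le_max_left _ _) (Nat.cast_nonneg _))
  have hM1 : ∀ z : ℕ, 2 ≤ z → ∑ v ∈ B z, Real.log (nm v) * (1 / nm v) ≤ 3 * C₁' * Real.log z := by
    intro z hz
    have h1 := mertens_one hB h2 hC₁0 hθ' z (by omega)
    have hz' : (0 : ℝ) < z := by
      have : (2 : ℝ) ≤ z := by exact_mod_cast hz
      linarith
    have h3 : (∑ v ∈ B z, Real.log (nm v)) / z ≤ C₁' := by
      rw [div_le_iff₀ hz']
      exact hθ' z
    have h4 : (1 / 2 : ℝ) ≤ Real.log z := by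
      have h5 : Real.log 2 ≤ Real.log z := Real.log_le_log (by norm_num) (by exact_mod_cast hz)
      have := Real.log_two_gt_d9
      linarith
    nlinarith
  -- the constants
  obtain ⟨W₀, hW₀⟩ := exists_nat_gt (2 * C / (δ / (8 * C * (m + 1))))
  set W : ℕ := max W₀ 1 with hWd
  have hW1 : 1 ≤ W := le_max_right _ _
  have hε : 2 * C / W ≤ δ / (8 * C * (m + 1)) := by
    have h1 : 2 * C / (δ / (8 * C * (m + 1))) ≤ W := by
      have : (W₀ : ℝ) ≤ W := by exact_mod_cast le_max_left _ _
      linarith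
    have hW' : (0 : ℝ) < W := by exact_mod_cast hW1
    have hd : 0 < δ / (8 * C * (m + 1)) := by positivity
    rw [div_le_iff₀ hd] at h1
    rw [div_le_iff₀ hW']
    linarith
  obtain ⟨K₀, hK₀⟩ := exists_nat_gt (12 * m * C₁')
  set K : ℕ := K₀ + 2 with hKd
  have hKR : 12 * m * C₁' ≤ K := by
    rw [hKd]
    push_cast
    linarith
  have hK0 : (0 : ℝ) < K := by
    rw [hKd]
    push_cast
    positivity
  set E : ℝ := ∑ v ∈ (B W ∪ hBad.toFinset), (1 : ℝ) / nm v with hE
  set c₁ : ℝ := δ / 8 * Real.exp (-(m * (C₂ + E)) - m ^ 2 * (2 * C / W)) / (2 * K) ^ m with hc₁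
  have hc₁0 : 0 < c₁ := by positivity
  set x₀ : ℕ := 2 ^ K with hx₀
  have hx₀4 : 4 ≤ x₀ := by
    rw [hx₀]
    calc 4 = 2 ^ 2 := by norm_num
      _ ≤ 2 ^ K := Nat.pow_le_pow_right (by norm_num) (by omega)
  have hx₀R : (4 : ℝ) ≤ x₀ := by exact_mod_cast hx₀4
  have hlx₀ : 0 < Real.log x₀ := Real.log_pos (by linarith)
  -- large x
  have hbig : ∀ x : ℕ, x₀ ≤ x →
      c₁ * x * Real.log x ^ m ≤ ∑ s ∈ ST nm B Bad x, ((m + 1 : ℕ) : ℝ) ^ s.card := by
    intro x hx
    have hxR : (4 : ℝ) ≤ x := by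
      have : (x₀ : ℝ) ≤ x := by exact_mod_cast hx
      linarith
    have hx0 : (0 : ℝ) < x := by linarith
    have hlx : 0 < Real.log x := Real.log_pos (by linarith)
    set y : ℝ := (x : ℝ) ^ ((1 : ℝ) / K) with hy
    have hy0 : 0 < y := Real.rpow_pos_of_pos hx0 _
    have hlogy : Real.log y = Real.log x / K := by
      rw [hy, Real.log_rpow hx0]
      ring
    have hy2 : 2 ≤ y := by
      have h1 : ((2 : ℝ) ^ K) ^ ((1 : ℝ) / K) ≤ (x : ℝ) ^ ((1 : ℝ) / K) := by
        apply Real.rpow_le_rpow (by positivity) _ (by positivity)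
        have : ((2 ^ K : ℕ) : ℝ) ≤ x := by exact_mod_cast hx
        push_cast at this
        exact this
      have h3 : ((2 : ℝ) ^ K) ^ ((1 : ℝ) / K) = 2 := by
        rw [← Real.rpow_natCast, ← Real.rpow_mul (by norm_num), mul_one_div_cancel hK0.ne',
          Real.rpow_one]
      rw [h3] at h1
      exact h1
    set z : ℕ := ⌊y⌋₊ with hz
    have hz2 : 2 ≤ z := Nat.le_floor (by exact_mod_cast hy2)
    have hzR : (2 : ℝ) ≤ z := by exact_mod_cast hz2
    have hzy : (z : ℝ) ≤ y := Nat.floor_le hy0.le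
    have hyz : y < z + 1 := Nat.lt_floor_add_one y
    have hlz : 0 < Real.log z := Real.log_pos (by linarith)
    have hlzx : Real.log z ≤ Real.log x / K := by
      rw [← hlogy]
      exact Real.log_le_log (by linarith) hzy
    have hlxz : Real.log x / (2 * K) ≤ Real.log z := by
      have h1 : Real.log y ≤ Real.log ((z : ℝ) ^ 2) := by
        apply Real.log_le_log hy0
        nlinarith
      rw [Real.log_pow, hlogy] at h1
      push_cast at h1
      have h3 : Real.log x / (2 * K) = (Real.log x / K) / 2 := by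
        field_simp
      rw [h3]
      linarith
    -- the primes
    set P0 : Finset P := (B z).filter (fun v => W < nm v ∧ v ∉ Bad) with hP0
    set a : P → ℝ := fun v => m * (1 / nm v) with ha
    have ha0 : ∀ v, 0 ≤ a v := fun v => by rw [ha]; positivity
    set φ : P → ℝ := fun v => 2 * C / δ * (1 / nm v) + Real.log (nm v) / Real.log x with hφ
    have hlnm : ∀ v, 0 ≤ Real.log (nm v) := fun v => Real.log_natCast_nonneg _
    have hφ0 : ∀ v, 0 ≤ φ v := fun v => by
      have := hlnm v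
      rw [hφ]
      positivity
    have hsq : ∑ v ∈ P0, ((1 : ℝ) / nm v) ^ 2 ≤ 2 * C / W := by
      refine le_trans ?_ (sq_tail' hB hC.le hπ W hW1 z)
      apply Finset.sum_le_sum_of_subset_of_nonneg
      · intro v hv
        rw [hP0, Finset.mem_filter] at hv
        rw [Finset.mem_filter]
        exact ⟨hv.1, hv.2.1⟩
      · intro v _ _
        positivity
    have hlogsum : ∑ v ∈ P0, Real.log (nm v) * (1 / nm v) ≤ 3 * C₁' * Real.log z := by
      refine le_trans ?_ (hM1 z hz2)
      apply Finset.sum_le_sum_of_subset_of_nonneg (Finset.filter_subset _ _)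
      intro v _ _
      have := hlnm v
      positivity
    have hhalf : ∑ v ∈ P0, φ v * a v ≤ 1 / 2 := by
      have h1 : ∑ v ∈ P0, φ v * a v = 2 * C / δ * m * ∑ v ∈ P0, ((1 : ℝ) / nm v) ^ 2 +
          m / Real.log x * ∑ v ∈ P0, Real.log (nm v) * (1 / nm v) := by
        rw [Finset.mul_sum, Finset.mul_sum, ← Finset.sum_add_distrib]
        refine Finset.sum_congr rfl fun v _ => ?_
        rw [hφ, ha]
        ring
      rw [h1]
      have h3 : 2 * C / δ * m * ∑ v ∈ P0, ((1 : ℝ) / nm v) ^ 2 ≤ 1 / 4 := by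
        calc _ ≤ 2 * C / δ * m * (δ / (8 * C * (m + 1))) :=
              mul_le_mul_of_nonneg_left (hsq.trans hε) (by positivity)
          _ = (m / (m + 1)) / 4 := by
              field_simp
              ring
          _ ≤ 1 / 4 := by
              have : (m : ℝ) / (m + 1) ≤ 1 := by
                rw [div_le_one (by positivity)]
                linarith
              linarith
      have h4 : m / Real.log x * ∑ v ∈ P0, Real.log (nm v) * (1 / nm v) ≤ 1 / 4 := by
        calc _ ≤ m / Real.log x * (3 * C₁' * (Real.log x / K)) := by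
              apply mul_le_mul_of_nonneg_left _ (by positivity)
              refine hlogsum.trans (mul_le_mul_of_nonneg_left hlzx (by positivity))
          _ = (12 * m * C₁') / K / 4 := by
              field_simp
              ring
          _ ≤ 1 / 4 := by
              have : (12 * m * C₁') / K ≤ 1 := by
                rw [div_le_one hK0]
                exact hKR
              linarith
      linarith
    have hmark := markov P0 a φ ha0 hφ0 hhalf
    set TT := P0.powerset.filter (fun t => ∑ v ∈ t, φ v ≤ 1) with hTT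
    -- each t
    have hterm : ∀ t ∈ TT, δ / 4 * x * ∏ v ∈ t, a v ≤
        (m : ℝ) ^ t.card * ({s ∈ ST nm B Bad x | t ⊆ s}.card : ℕ) := by
      intro t ht
      rw [hTT, Finset.mem_filter, Finset.mem_powerset] at ht
      obtain ⟨htP, ht1⟩ := ht
      have hpos : 0 < ∏ v ∈ t, nm v := Finset.prod_pos fun u _ => by have := h2 u; omega
      have hposR : (0 : ℝ) < ((∏ v ∈ t, nm v : ℕ) : ℝ) := by exact_mod_cast hpos
      have hsplit : ∑ v ∈ t, φ v = 2 * C / δ * ∑ v ∈ t, (1 : ℝ) / nm v +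
          (∑ v ∈ t, Real.log (nm v)) / Real.log x := by
        rw [Finset.mul_sum, Finset.sum_div, ← Finset.sum_add_distrib]
      have hs1 : 0 ≤ ∑ v ∈ t, (1 : ℝ) / nm v := Finset.sum_nonneg fun v _ => by positivity
      have hs2 : 0 ≤ ∑ v ∈ t, Real.log (nm v) := Finset.sum_nonneg fun v _ => hlnm v
      have hi : ∑ v ∈ t, (1 : ℝ) / nm v ≤ δ / (2 * C) := by
        have h1 : 2 * C / δ * ∑ v ∈ t, (1 : ℝ) / nm v ≤ 1 := by
          have : 0 ≤ (∑ v ∈ t, Real.log (nm v)) / Real.log x := by positivity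
          linarith
        rw [le_div_iff₀ (by positivity)]
        rw [div_mul_eq_mul_div, div_le_one hδ] at h1
        linarith
      have hii : ∏ v ∈ t, nm v ≤ x := by
        have h1 : (∑ v ∈ t, Real.log (nm v)) / Real.log x ≤ 1 := by
          have : 0 ≤ 2 * C / δ * ∑ v ∈ t, (1 : ℝ) / nm v := by positivity
          linarith
        rw [div_le_one hlx] at h1
        have h3 : Real.log ((∏ v ∈ t, nm v : ℕ) : ℝ) = ∑ v ∈ t, Real.log (nm v) := by
          push_cast
          rw [Real.log_prod]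
          intro v _
          have := h2 v
          have : (0 : ℝ) < nm v := by exact_mod_cast (by omega : 0 < nm v)
          exact this.ne'
        rw [← h3] at h1
        have h4 := (Real.log_le_log_iff hposR hx0).1 h1
        exact_mod_cast h4
      have htB : ∀ v ∈ Bad, v ∉ t := by
        intro v hv hvt
        have := htP hvt
        rw [hP0, Finset.mem_filter] at this
        exact this.2.2 hv
      have hq : 1 ≤ x / ∏ v ∈ t, nm v := (Nat.one_le_div_iff hpos).2 hii
      have h5 := card_disjoint hB h2 hC hup Bad hlow t hi (x / ∏ v ∈ t, nm v) hq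
      have h6 := card_super hB h2 Bad t htB x
      have h7 : δ / 2 * ((x / ∏ v ∈ t, nm v : ℕ) : ℝ) ≤
          ({s ∈ ST nm B Bad x | t ⊆ s}.card : ℕ) := h5.trans (by exact_mod_cast h6)
      have h8 : (x : ℝ) / (∏ v ∈ t, nm v : ℕ) / 2 ≤ ((x / ∏ v ∈ t, nm v : ℕ) : ℝ) := by
        have h9 := Nat.lt_div_mul_add (a := x) hpos
        have h10 : (x : ℝ) < ((x / ∏ v ∈ t, nm v : ℕ) : ℝ) * (∏ v ∈ t, nm v : ℕ) +
            (∏ v ∈ t, nm v : ℕ) := by exact_mod_cast h9
        have h11 : (1 : ℝ) ≤ ((x / ∏ v ∈ t, nm v : ℕ) : ℝ) := by exact_mod_cast hq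
        rw [div_div, div_le_iff₀ (by positivity)]
        nlinarith
      have h12 : ∏ v ∈ t, a v = (m : ℝ) ^ t.card * (1 / ((∏ v ∈ t, nm v : ℕ) : ℝ)) := by
        rw [ha, Finset.prod_mul_distrib, Finset.prod_const]
        congr 1
        push_cast
        rw [Finset.prod_div_distrib, Finset.prod_const_one]
      rw [h12]
      calc δ / 4 * x * ((m : ℝ) ^ t.card * (1 / ((∏ v ∈ t, nm v : ℕ) : ℝ))) =
            (m : ℝ) ^ t.card * (δ / 2 * ((x : ℝ) / (∏ v ∈ t, nm v : ℕ) / 2)) := by ring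
        _ ≤ (m : ℝ) ^ t.card * ({s ∈ ST nm B Bad x | t ⊆ s}.card : ℕ) := by
            apply mul_le_mul_of_nonneg_left _ (by positivity)
            refine le_trans ?_ h7
            exact mul_le_mul_of_nonneg_left h8 (by positivity)
    have hsum : δ / 4 * x * ∑ t ∈ TT, ∏ v ∈ t, a v ≤
        ∑ s ∈ ST nm B Bad x, ((m + 1 : ℕ) : ℝ) ^ s.card := by
      rw [Finset.mul_sum]
      exact (Finset.sum_le_sum hterm).trans (weighted_ge _ _ m)
    -- the Euler product
    have hprod : Real.exp (-(m * (C₂ + E)) - m ^ 2 * (2 * C / W)) * Real.log z ^ m ≤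
        ∏ v ∈ P0, (1 + a v) := by
      refine le_trans ?_ (prod_ge P0 a ha0)
      have h1 : Real.log z ^ m = Real.exp (m * Real.log (Real.log z)) := by
        rw [mul_comm, ← Real.rpow_def_of_pos hlz, Real.rpow_natCast]
      rw [h1, ← Real.exp_add]
      apply Real.exp_le_exp.2
      have h3 : ∑ v ∈ P0, (a v) ^ 2 = m ^ 2 * ∑ v ∈ P0, ((1 : ℝ) / nm v) ^ 2 := by
        rw [Finset.mul_sum]
        refine Finset.sum_congr rfl fun v _ => ?_
        rw [ha]
        ring
      have h4 : ∑ v ∈ P0, a v = m * ∑ v ∈ P0, (1 : ℝ) / nm v := by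
        rw [Finset.mul_sum]
      have h5 : ∑ v ∈ B z, (1 : ℝ) / nm v ≤ ∑ v ∈ P0, (1 : ℝ) / nm v + E := by
        have h6 : B z ⊆ P0 ∪ (B W ∪ hBad.toFinset) := by
          intro v hv
          rw [Finset.mem_union, Finset.mem_union, hP0, Finset.mem_filter, hB W,
            Set.Finite.mem_toFinset]
          by_cases h7 : nm v ≤ W
          · exact Or.inr (Or.inl h7)
          · by_cases h8 : v ∈ Bad
            · exact Or.inr (Or.inr h8)
            · exact Or.inl ⟨hv, by omega, h8⟩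
        calc _ ≤ ∑ v ∈ P0 ∪ (B W ∪ hBad.toFinset), (1 : ℝ) / nm v :=
              Finset.sum_le_sum_of_subset_of_nonneg h6 fun v _ _ => by positivity
          _ ≤ _ := by
              rw [hE, ← Finset.sum_union_inter]
              exact le_add_of_nonneg_right (Finset.sum_nonneg fun v _ => by positivity)
      rw [h3, h4]
      have h9 := hM z hz2
      have h10 : (m : ℝ) ^ 2 * ∑ v ∈ P0, ((1 : ℝ) / nm v) ^ 2 ≤ m ^ 2 * (2 * C / W) :=
        mul_le_mul_of_nonneg_left hsq (by positivity)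
      have h11 : (m : ℝ) * (Real.log (Real.log z) - C₂ - E) ≤ m * ∑ v ∈ P0, (1 : ℝ) / nm v :=
        mul_le_mul_of_nonneg_left (by linarith) (by positivity)
      linarith
    calc c₁ * x * Real.log x ^ m = δ / 8 * x * (Real.exp (-(m * (C₂ + E)) - m ^ 2 * (2 * C / W)) *
          (Real.log x / (2 * K)) ^ m) := by
          rw [hc₁, div_pow]
          ring
      _ ≤ δ / 8 * x * (Real.exp (-(m * (C₂ + E)) - m ^ 2 * (2 * C / W)) * Real.log z ^ m) := by
          apply mul_le_mul_of_nonneg_left _ (by positivity)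
          apply mul_le_mul_of_nonneg_left _ (by positivity)
          exact pow_le_pow_left₀ (by positivity) hlxz m
      _ ≤ δ / 8 * x * ∏ v ∈ P0, (1 + a v) := mul_le_mul_of_nonneg_left hprod (by positivity)
      _ = δ / 4 * x * (1 / 2 * ∏ v ∈ P0, (1 + a v)) := by ring
      _ ≤ δ / 4 * x * ∑ t ∈ TT, ∏ v ∈ t, a v := mul_le_mul_of_nonneg_left hmark (by positivity)
      _ ≤ _ := hsum
  -- small x
  refine ⟨min c₁ (1 / (x₀ * Real.log x₀ ^ m)), lt_min hc₁0 (by positivity), fun x hx => ?_⟩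
  have hxR : (3 : ℝ) ≤ x := by exact_mod_cast hx
  have hlx : 0 < Real.log x := Real.log_pos (by linarith)
  by_cases hxx : x₀ ≤ x
  · refine le_trans ?_ (hbig x hxx)
    gcongr
    exact min_le_left _ _
  · have hxx' : (x : ℝ) ≤ x₀ := by exact_mod_cast (not_le.1 hxx).le
    have h1 : (1 : ℝ) ≤ ∑ s ∈ ST nm B Bad x, ((m + 1 : ℕ) : ℝ) ^ s.card := by
      have h3 : (∅ : Finset P) ∈ ST nm B Bad x := by
        rw [mem_ST hB h2]
        refine ⟨by rw [Finset.prod_empty]; omega, fun v _ => Finset.notMem_empty v⟩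
      have h4 := Finset.single_le_sum (s := ST nm B Bad x)
        (f := fun s => ((m + 1 : ℕ) : ℝ) ^ s.card) (fun s _ => by positivity) h3
      simpa using h4
    refine le_trans ?_ h1
    calc min c₁ (1 / (x₀ * Real.log x₀ ^ m)) * x * Real.log x ^ m
        ≤ 1 / (x₀ * Real.log x₀ ^ m) * x₀ * Real.log x₀ ^ m := by
          gcongr
          exact min_le_right _ _
      _ = 1 := by
          field_simp

end

end Pool.Agent.Helper88.LN
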