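import Pool.Agent.Helper99.LN.Defs
import Pool.Agent.Helper45.HG.TotB
import Pool.Agent.Helper21.HG.Mert
import Pool.Agent.Helper88.LN.LowB

/-! Project LN, block LOW: the weighted number of the sets of primes which avoid a finite set. -/

set_option autoImplicit false

namespace Pool.Agent.LN

open NumberField IsDedekindDomain Ideal Filter
open Pool.Agent.HG (Pr nm)
open Pool.Agent.Helper88.LN

open scoped Classical

noncomputable section

variable (k : Type) [Field k] [NumberField k]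

theorem low_two_le (v : Pr k) : 2 ≤ nm v := Pool.Agent.H53SCD.two_le_norm k v

theorem low_finB (x : ℕ) : {v : Pr k | nm v ≤ x}.Finite := by
  have h1 : Set.Finite {I : Ideal (𝓞 k) | absNorm I ≤ x} := Ideal.finite_setOfPred_absNorm_le x
  refine Set.Finite.of_finite_image (f := fun v : Pr k => v.asIdeal) (h1.subset ?_) ?_
  · rintro _ ⟨v, hv, rfl⟩
    exact hv
  · intro v _ w _ h
    exact HeightOneSpectrum.ext h

/-- the primes of norm at most `x` -/
def lowB (x : ℕ) : Finset (Pr k) := (low_finB k x).toFinset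

theorem mem_lowB (x : ℕ) (v : Pr k) : v ∈ lowB k x ↔ nm v ≤ x := by
  rw [lowB, Set.Finite.mem_toFinset]
  rfl

theorem dvd_prod_iff (s : Finset (Pr k)) (v : Pr k) :
    v.asIdeal ∣ ∏ u ∈ s, u.asIdeal ↔ v ∈ s := by
  rw [Prime.dvd_finset_prod_iff v.prime]
  constructor
  · rintro ⟨u, hu, h⟩
    have h1 : v.asIdeal = u.asIdeal := by
      have h2 := u.prime
      exact associated_iff_eq.1 (v.prime.associated_of_dvd h2 h)
    rw [HeightOneSpectrum.ext h1]
    exact hu
  · intro h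
    exact ⟨v, h, dvd_rfl⟩

theorem low_up : ∃ C : ℝ, 0 < C ∧ ∀ y : ℕ, ((ST nm (lowB k) ∅ y).card : ℝ) ≤ C * y := by
  obtain ⟨C, hC, h⟩ := Pool.Agent.HG.card_idl_le k
  refine ⟨C, hC, fun y => le_trans ?_ (h y)⟩
  norm_cast
  apply Finset.card_le_card_of_injOn (fun s => ∏ v ∈ s, v.asIdeal)
  · intro s hs
    rw [Finset.mem_coe, mem_ST (mem_lowB k) (low_two_le k)] at hs
    rw [Finset.mem_coe, Pool.Agent.HG.mem_idl]
    refine ⟨Finset.prod_ne_zero_iff.2 fun v _ => v.ne_bot, ?_⟩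
    rw [map_prod]
    exact hs.1
  · intro s _ s' _ h1
    ext v
    have h2 : ∏ u ∈ s, u.asIdeal = ∏ u ∈ s', u.asIdeal := h1
    rw [← dvd_prod_iff, h2, dvd_prod_iff]

/-- squarefree ideals give sets of primes -/
theorem low_SQ (X : ℕ) : (Pool.Agent.HG.SQ k X).card ≤ (ST nm (lowB k) ∅ X).card := by
  have hfin : ∀ J : Ideal (𝓞 k), J ≠ 0 → {v : Pr k | v.asIdeal ∣ J}.Finite := fun J hJ =>
    Ideal.finite_factors hJ
  apply Finset.card_le_card_of_injOn (fun J => if hJ : J ≠ 0 then (hfin J hJ).toFinset else ∅)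
  · intro J hJ
    rw [Finset.mem_coe, Pool.Agent.HG.SQ, Finset.mem_filter, Pool.Agent.HG.mem_idl] at hJ
    rw [Finset.mem_coe, mem_ST (mem_lowB k) (low_two_le k)]
    refine ⟨?_, fun u hu => absurd hu (Set.notMem_empty u)⟩
    have hJ0 : J ≠ 0 := hJ.1.1
    simp only [hJ0, ne_eq, not_false_eq_true, dite_true]
    refine le_trans ?_ hJ.1.2
    have h2 : ∏ v ∈ (hfin J hJ0).toFinset, nm v =
        Ideal.absNorm (∏ v ∈ (hfin J hJ0).toFinset, v.asIdeal) := by
      rw [map_prod]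
      rfl
    rw [h2]
    refine Nat.le_of_dvd (Nat.pos_of_ne_zero ?_) ?_
    · rw [Ne, Ideal.absNorm_eq_zero_iff]
      exact hJ0
    · refine Ideal.absNorm_dvd_absNorm_of_le (Ideal.dvd_iff_le.1 ?_)
      have h3 : ∏ v ∈ (hfin J hJ0).toFinset, v.asIdeal =
          ∏ p ∈ (hfin J hJ0).toFinset.image (fun v : Pr k => v.asIdeal), p := by
        rw [Finset.prod_image]
        intro v _ w _ hvw
        exact HeightOneSpectrum.ext hvw
      rw [h3]
      refine Finset.prod_primes_dvd _ ?_ ?_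
      · intro p hp
        obtain ⟨v, -, rfl⟩ := Finset.mem_image.1 hp
        exact v.prime
      · intro p hp
        obtain ⟨v, hv, rfl⟩ := Finset.mem_image.1 hp
        simpa using hv
  · intro J hJ J' hJ' h
    rw [Finset.mem_coe, Pool.Agent.HG.SQ, Finset.mem_filter, Pool.Agent.HG.mem_idl] at hJ hJ'
    have hJ0 : J ≠ 0 := hJ.1.1
    have hJ0' : J' ≠ 0 := hJ'.1.1
    simp only [hJ0, hJ0', ne_eq, not_false_eq_true, dite_true] at h
    apply Pool.Agent.HG.squarefree_ext hJ.2.1 hJ'.2.1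
    intro v
    have h4 : v ∈ (hfin J hJ0).toFinset ↔ v ∈ (hfin J' hJ0').toFinset := by rw [h]
    simpa using h4

/-- removing the primes of a finite set -/
theorem low_bad (Bad : Set (Pr k)) (hBad : Bad.Finite) (y : ℕ) :
    (ST nm (lowB k) ∅ y).card ≤ 2 ^ hBad.toFinset.card * (ST nm (lowB k) Bad y).card := by
  rw [← Finset.card_powerset, ← Finset.card_product]
  apply Finset.card_le_card_of_injOn (fun s => (s ∩ hBad.toFinset, s \ hBad.toFinset))
  · intro s hs
    rw [Finset.mem_coe, mem_ST (mem_lowB k) (low_two_le k)] at hs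
    rw [Finset.mem_coe, Finset.mem_product, Finset.mem_powerset,
      mem_ST (mem_lowB k) (low_two_le k)]
    refine ⟨Finset.inter_subset_right, ?_, ?_⟩
    · refine le_trans ?_ hs.1
      apply Nat.le_of_dvd
      · exact Finset.prod_pos fun u _ => by have := low_two_le k u; omega
      · exact Finset.prod_dvd_prod_of_subset _ _ _ Finset.sdiff_subset
    · intro v hv hvs
      rw [Finset.mem_sdiff, Set.Finite.mem_toFinset] at hvs
      exact hvs.2 hv
  · intro s _ s' _ h
    have h1 : s ∩ hBad.toFinset = s' ∩ hBad.toFinset := congrArg Prod.fst h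
    have h2 : s \ hBad.toFinset = s' \ hBad.toFinset := congrArg Prod.snd h
    rw [← Finset.sdiff_union_inter s hBad.toFinset, ← Finset.sdiff_union_inter s' hBad.toFinset,
      h1, h2]

theorem low_low (Bad : Set (Pr k)) (hBad : Bad.Finite) :
    ∃ δ : ℝ, 0 < δ ∧ ∀ y : ℕ, 1 ≤ y → δ * y ≤ ((ST nm (lowB k) Bad y).card : ℝ) := by
  obtain ⟨δ, hδ, h⟩ := Pool.Agent.HG.card_SQ_ge k
  obtain ⟨X₀, hX₀⟩ := eventually_atTop.1 h
  have hp : (0 : ℝ) < 2 ^ hBad.toFinset.card := by positivity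
  refine ⟨min (δ / 2 ^ hBad.toFinset.card) (1 / (X₀ + 1)), lt_min (by positivity) (by positivity),
    fun y hy => ?_⟩
  have hyR : (1 : ℝ) ≤ y := by exact_mod_cast hy
  by_cases hyX : X₀ ≤ y
  · have h1 := hX₀ y hyX
    have h2 : ((Pool.Agent.HG.SQ k y).card : ℝ) ≤
        2 ^ hBad.toFinset.card * (ST nm (lowB k) Bad y).card := by
      exact_mod_cast (low_SQ k y).trans (low_bad k Bad hBad y)
    calc min (δ / 2 ^ hBad.toFinset.card) (1 / (X₀ + 1)) * (y : ℝ)
        ≤ (δ / 2 ^ hBad.toFinset.card) * y :=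
          mul_le_mul_of_nonneg_right (min_le_left _ _) (by positivity)
      _ = (δ * y) / 2 ^ hBad.toFinset.card := by ring
      _ ≤ _ := by
          rw [div_le_iff₀ hp]
          linarith
  · have h1 : 1 ≤ (ST nm (lowB k) Bad y).card := by
      rw [Nat.succ_le_iff, Finset.card_pos]
      refine ⟨∅, ?_⟩
      rw [mem_ST (mem_lowB k) (low_two_le k)]
      exact ⟨by rw [Finset.prod_empty]; exact hy, fun v _ => Finset.notMem_empty v⟩
    have h2 : (1 : ℝ) ≤ (ST nm (lowB k) Bad y).card := by exact_mod_cast h1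
    refine le_trans ?_ h2
    have h3 : (y : ℝ) ≤ X₀ := by exact_mod_cast (not_le.1 hyX).le
    calc min (δ / 2 ^ hBad.toFinset.card) (1 / (X₀ + 1)) * (y : ℝ)
        ≤ (1 / (X₀ + 1)) * y := mul_le_mul_of_nonneg_right (min_le_right _ _) (by positivity)
      _ = y / (X₀ + 1) := by ring
      _ ≤ 1 := by
          rw [div_le_one (by positivity)]
          linarith

/-- **BLOCK LOW.** -/
theorem low : StmtLOW := by
  intro k _ _ w hw Bad hBad
  obtain ⟨m, rfl⟩ : ∃ m : ℕ, w = m + 1 := ⟨w - 1, by omega⟩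
  obtain ⟨C, hC, hup⟩ := low_up k
  obtain ⟨δ, hδ, hlow⟩ := low_low k Bad hBad
  obtain ⟨⟨C₁, h₁⟩, C₂, h₂⟩ := Pool.Agent.Helper21.HG.mert k (lowB k) (mem_lowB k)
  obtain ⟨c₀, hc₀, h⟩ := low_abs (mem_lowB k) (low_two_le k) hC hup Bad hBad hδ hlow h₁
    (C₂ := C₂) (fun x hx => by
      have := (abs_le.1 (h₂ x hx)).1
      linarith) m
  refine ⟨c₀, hc₀, fun x hx => ⟨ST nm (lowB k) Bad x, fun s hs => ?_, ?_⟩⟩
  · exact (mem_ST (mem_lowB k) (low_two_le k)).1 hs
  · have h3 := h x hx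
    have h4 : Real.log x ^ (((m + 1 : ℕ) : ℝ) - 1) = Real.log x ^ m := by
      rw [← Real.rpow_natCast]
      congr 1
      push_cast
      ring
    rw [h4]
    exact h3

end

end Pool.Agent.LN
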